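import Pool.Agent.Q220.VL.Short

set_option autoImplicit false

/-!
# MP_a1ec0a_al: words with at most eight syllables, all Artin groups

For EVERY Artin group `A_M` (no condition on the Coxeter matrix, labels `∞` are allowed) the word problem is
solved for the words `s₁ ^ a₁ s₂ ^ a₂ ⋯ s_k ^ a_k` with at most eight syllables (arbitrary integer exponents):
such a word is `1` in `A_M` if and only if it can be rewritten to the empty word by the steps

* delete a syllable with exponent zero, unite two neighbouring syllables of the same generator,
* exchange neighbouring syllables of generators with `m_{st} = 2`,
* delete a subword `s ^ a₁ t ^ a₂ s ^ a₃ ⋯` in two generators with `m = m_{st} = 3` or `4` which has at least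
  `2 m` syllables and is `1` in the Artin group with two generators and the label `m` (where the word
  problem is classical).

No step makes the word longer, and only finitely many words can be reached, so this is an explicit
algorithm, uniform in the matrix. In particular every relation with at most eight syllables follows from
the relations of the subgroups of two generators, and the labels `m ≥ 5` play no role for these words. For
ten syllables this is no longer true: `s₁ s₂ s₁ s₃ s₂ = s₂ s₁ s₃ s₂ s₃` in the braid group on four strands.

**Proof.** Let `w` be such a word with value `1`, without exponents zero and equal neighbours.
(1) Suppose that some generator `s` has one or two syllables. By the action of `A_M` on minimal coset representatives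
times a parabolic subgroup (which also gives van der Lek's theorem) it has two syllables
`w = L s ^ a X s ^ b R`, and `a + b = 0`, `s ^ a` commutes with `X`, and `L X R = 1`. Now `X` has at most three
syllables, or `R L` has at most two. With the reflection representation of the Hecke
algebra we show: if `s ^ a` commutes with a word with at most three syllables, then `s` commutes with its
letters, or the word can be shortened.
(2) Otherwise there are only two generators `s`, `t`, with three or four syllables each. If `m_{st}` is `∞` or more
than half of the number of the syllables, the value is not `1`: we use the representation of the dihedral
Artin group by two transvections of the plane with `λ = 2 cos (π / m)`, and the estimate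
`|y_{k+1} / y_k| ≥ sin ((j + 1) θ) / sin (j θ)`, `θ = π / m`, along a run of `j` exponents of the same sign. As the sum of the
exponents is `0` there are two runs at least, and after a cyclic permutation every run is short enough.
-/

namespace Pool.Agent.Results.MP_a1ec0a_al.EightSyllables

open Pool.Agent.Q220.VL (value Step)

/-- **Words with at most eight syllables, all Artin groups.** -/
theorem result (n : ℕ) (M : CoxeterMatrix (Fin n)) (w : List (Fin n × ℤ)) (hw : w.length ≤ 8) :
    value M w = 1 ↔ Relation.ReflTransGen (Step M) w [] :=
  Pool.Agent.Q220.VL.value_eq_one_iff_rw hw

end Pool.Agent.Results.MP_a1ec0a_al.EightSyllables
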