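import Pool.Agent.Q220.VL.Reduce

set_option autoImplicit false

/-!
# MP_a1ec0a_al: the word problem for all Artin groups is the word problem of one group with two generators

Let `G` be the group with two generators `s, t` and the following relations: for every finite
Coxeter matrix `(m_ij)`, with the code `L`, and for all `i < j` with `m_ij` finite, the relation of length
`m_ij` between alternating words in `x_{L,i}` and `x_{L,j}`, where

`x_{L,i} = t ^ k s t ^ (-k)`, `k = 2 ^ ⟨L, i⟩`, and `⟨L, i⟩` is the number of the pair (code of `L`, `i`).

1. The map `i ↦ x_{L,i}` embeds the Artin group of the matrix with the code `L` in `G`, for all `L`.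
2. The uniform word problem for all Artin groups (the input is a Coxeter matrix and a word) and
the word problem of `G` are many-one equivalent, by primitive recursive reductions.

So Q1 has the answer yes if and only if the single group `G` has a solvable word problem: the uniformity in the
matrix, the number of the generators and the infinitely many groups are not a problem of their own.

**Proof.** Let `μ(d) = m_ij` if `d = 2 ^ ⟨L, j⟩ - 2 ^ ⟨L, i⟩` (these numbers are different), and `μ(d) = ∞` for
the other `d`. The Artin group `A_μ` of the Toeplitz matrix `μ(|x - y|)` on the integers has the shift as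
an automorphism, and `G` is the semidirect product `A_μ ⋊ ℤ`. Every Coxeter matrix is the restriction of the
Toeplitz matrix to the positions `2 ^ ⟨L, i⟩`. Van der Lek's theorem (reproved here, also for infinitely many
generators) gives 1 and the first reduction. For the second one: a word of length `N` in `s, t` is `1` in
`G` if and only if the exponents of `t` have the sum `0` and a word computed from it is `1` in the Artin group
of the Toeplitz matrix on `{0, …, 2N}`.
-/

namespace Pool.Agent.Results.MP_a1ec0a_al.OneTwoGeneratorGroup

open Pool.Agent.Helper741 (alt Artin)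

/-- The label `m_ij` (`i < j`) which is read from a list of rows. `0` stands for infinity; the entry
`1` and missing entries are also read as infinity. -/
def entry (L : List (List ℕ)) (i j : ℕ) : ℕ :=
  if (L.getD i []).getD j 0 = 1 then 0 else (L.getD i []).getD j 0

/-- The Coxeter matrix on `{0, …, n - 1}`, `n` the number of the rows of `L`, with these labels. -/
def mat (L : List (List ℕ)) : CoxeterMatrix (Fin L.length) where
  M := Matrix.of fun i j => if i = j then 1 else entry L (min i.1 j.1) (max i.1 j.1)
  isSymm := (Pool.Agent.Q220.VL.mat L).isSymm
  diagonal := (Pool.Agent.Q220.VL.mat L).diagonal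
  off_diagonal := (Pool.Agent.Q220.VL.mat L).off_diagonal

/-- The element of the Artin group which is given by a word, a list of letters `(i, e)`, which
stand for the generator number `i` (if `e` is true) or its inverse. Letters with `i ≥ n` are
skipped. -/
def wordValue (L : List (List ℕ)) (w : List (ℕ × Bool)) : Artin (mat L) :=
  (w.map fun p => if h : p.1 < L.length then
    (if p.2 then Artin.gen (mat L) ⟨p.1, h⟩ else (Artin.gen (mat L) ⟨p.1, h⟩)⁻¹) else 1).prod

/-- The exponent `2 ^ ⟨L, i⟩`. -/
def pos (L : List (List ℕ)) (i : ℕ) : ℕ := 2 ^ Nat.pair (Encodable.encode L) i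

/-- The word `t ^ k s t ^ (-k)` in the free group on `s = true` and `t = false`. -/
def conj (k : ℕ) : FreeGroup Bool :=
  FreeGroup.of false ^ k * FreeGroup.of true * (FreeGroup.of false ^ k)⁻¹

/-- The relators of `G`. -/
def relators : Set (FreeGroup Bool) :=
  {r | ∃ (L : List (List ℕ)) (i j : ℕ), i < j ∧
    r = alt (conj (pos L i)) (conj (pos L j)) (entry L i j) *
      (alt (conj (pos L j)) (conj (pos L i)) (entry L i j))⁻¹}

/-- The group `G` with the two generators `s = true` and `t = false`. -/
abbrev G : Type := PresentedGroup relators

/-- The list has the form of the matrix `M`. -/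
def Codes {n : ℕ} (L : List (List ℕ)) (M : CoxeterMatrix (Fin n)) : Prop :=
  ∃ h : L.length = n, ∀ i j : Fin L.length, mat L i j = M (Fin.cast h i) (Fin.cast h j)

/-- **The word problem for all Artin groups is the word problem of one group with two
generators.** -/
theorem result :
    -- every Coxeter matrix has a code
    (∀ (n : ℕ) (M : CoxeterMatrix (Fin n)), ∃ L, Codes L M) ∧
    -- all Artin groups embed in `G`
    (∀ L : List (List ℕ), ∃ φ : Artin (mat L) →* G, Function.Injective φ ∧
      ∀ i : Fin L.length, φ (Artin.gen (mat L) i) = PresentedGroup.mk relators (conj (pos L i))) ∧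
    -- the two word problems are equivalent
    ManyOneEquiv (fun x : List (List ℕ) × List (ℕ × Bool) => wordValue x.1 x.2 = 1)
      (fun v : List (Bool × Bool) => PresentedGroup.mk relators (FreeGroup.mk v) = 1) := by
  refine ⟨?_, ?_, Pool.Agent.Q220.VL.manyOneEquiv⟩
  · intro n M
    refine ⟨List.ofFn fun i : Fin n => List.ofFn fun j : Fin n => M i j, by simp, ?_⟩
    intro i j
    have hlen : (List.ofFn fun i : Fin n => List.ofFn fun j : Fin n => M i j).length = n := by simp
    have hi : i.1 < n := lt_of_lt_of_eq i.2 hlen
    have hj : j.1 < n := lt_of_lt_of_eq j.2 hlen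
    have key : ∀ a b : ℕ, ∀ (ha : a < n) (hb : b < n), a < b →
        entry (List.ofFn fun i : Fin n => List.ofFn fun j : Fin n => M i j) a b =
          M ⟨a, ha⟩ ⟨b, hb⟩ := by
      intro a b ha hb hab
      have h : ((List.ofFn fun i : Fin n => List.ofFn fun j : Fin n => M i j).getD a []).getD b 0 =
          M ⟨a, ha⟩ ⟨b, hb⟩ := by
        simp [List.getD_eq_getElem?_getD, ha, hb]
      unfold entry
      rw [h, if_neg (M.off_diagonal _ _ (by
        intro h1
        have := congrArg Fin.val h1
        simp only at this
        omega))]
    change (if i = j then 1 else entry _ (min i.1 j.1) (max i.1 j.1)) = _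
    by_cases h : i = j
    · subst h
      rw [if_pos rfl, M.diagonal]
    · rw [if_neg h]
      rcases Nat.lt_or_gt_of_ne (fun h' => h (Fin.ext h')) with h1 | h1
      · rw [min_eq_left h1.le, max_eq_right h1.le]
        exact key i.1 j.1 hi hj h1
      · rw [min_eq_right (le_of_lt h1), max_eq_left (le_of_lt h1), M.symmetric]
        exact key j.1 i.1 hj hi h1
  · intro L
    refine ⟨Pool.Agent.Q220.VL.beta L, Pool.Agent.Q220.VL.beta_injective L, fun i => ?_⟩
    exact (Pool.Agent.Q220.VL.beta_gen L i).trans (Pool.Agent.Q220.VL.mk_conj _).symm

end Pool.Agent.Results.MP_a1ec0a_al.OneTwoGeneratorGroup
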