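import Pool.Agent.Q220.VL.Block

set_option autoImplicit false

/-!
# MP_a1ec0a_al: words with two blocks of a set `V` of generators, all Artin groups

Let `A` be ANY Artin group with generating set `S`, let `V ⊆ S`, and let `g, h` be elements of the parabolic
subgroup `A_V` and `x₀, x₁, x₂` elements of `A_{S ∖ V}`. Suppose that the image of `g` (or of `h`) in the
Coxeter group lies in no proper standard parabolic subgroup of `W_V`. For every `U ⊆ S ∖ V`

`x₀ g x₁ h x₂ ∈ A_U` if and only if `h = g⁻¹`, `x₁ ∈ A_{V^⊥}` and `x₀ x₁ x₂ ∈ A_U`,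

where `V^⊥` is the set of the generators outside `V` which commute with all generators in `V` by a
defining relation. For `U = ∅` this is the word problem for the words in which the letters from `V` form
two blocks: it is reduced to the word problems of `A_V` and `A_{S ∖ V}` (membership in a standard
parabolic subgroup is reduced to the word problem by the retraction). There is no condition on the Coxeter
matrix. In terms of parabolic subgroups: `A_{S ∖ V} ∩ g A_{S ∖ V} g⁻¹ = A_{V^⊥}` for all these `g`; for
example, for one generator `s`, `A_{S ∖ s} ∩ s ^ a A_{S ∖ s} s ^ (-a) = A_{s^⊥}` for all odd `a`.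

**Proof.** `A` acts on (minimal representatives of `W / W_T`) × `A_T`, `T = S ∖ V`: a generator `i` maps
`(v, y)` to `(v, t y)` if `v` maps the simple root of some `t ∈ T` to the one of `i`, and to `(i v, y)`
otherwise. (The braid relations hold by Deodhar's lemma and since the product of the steps over a reduced word
of `w` only depends on `w`; this also proves van der Lek's theorem that `A_T` embeds.) The elements of `A_V` move
`(1, y)` to `(w, y)`, `w` their image in `W_V`. Along a path in `A_T` from the state `w ∈ W_V` the second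
coordinate is only changed by generators `t` whose simple root is fixed by `w`, and these are the
generators which commute with all letters of a reduced word of `w`. So `g x₁ h = z ∈ A_T` gives
`z ∈ A_{V^⊥}`, which commutes with `g`, and `g⁻¹ h⁻¹ ∈ A_V ∩ A_T = 1`.
-/

namespace Pool.Agent.Results.MP_a1ec0a_al.TwoBlocks

open Pool.Agent.Helper741 (Artin)
open Pool.Agent.Q220.VL (toW)

/-- The standard parabolic subgroup `A_U` of the Artin group. -/
def parabolic {n : ℕ} (M : CoxeterMatrix (Fin n)) (U : Set (Fin n)) : Subgroup (Artin M) :=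
  Subgroup.closure (Artin.gen M '' U)

/-- The standard parabolic subgroup `W_U` of the Coxeter group. -/
def parabolicW {n : ℕ} (M : CoxeterMatrix (Fin n)) (U : Set (Fin n)) : Subgroup M.Group :=
  Subgroup.closure (M.simple '' U)

/-- The generators outside `V` which commute with all generators in `V` by a defining relation. -/
def perp {n : ℕ} (M : CoxeterMatrix (Fin n)) (V : Finset (Fin n)) : Set (Fin n) :=
  {t | t ∉ V ∧ ∀ s ∈ V, M s t = 2}

/-- The element `w` of the Coxeter group lies in no standard parabolic subgroup `W_{V'}` with a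
proper subset `V'` of `V`. -/
def Full {n : ℕ} (M : CoxeterMatrix (Fin n)) (V : Finset (Fin n)) (w : M.Group) : Prop :=
  ∀ V' : Finset (Fin n), V' ⊂ V → w ∉ parabolicW M V'

/-- **Two blocks.** -/
theorem result (n : ℕ) (M : CoxeterMatrix (Fin n)) (V : Finset (Fin n)) (U : Set (Fin n))
    (hU : ∀ t ∈ U, t ∉ V) (g h x₀ x₁ x₂ : Artin M) (hg : g ∈ parabolic M V) (hh : h ∈ parabolic M V)
    (h₀ : x₀ ∈ parabolic M {t | t ∉ V}) (h₁ : x₁ ∈ parabolic M {t | t ∉ V})
    (h₂ : x₂ ∈ parabolic M {t | t ∉ V}) (hfull : Full M V (toW M g) ∨ Full M V (toW M h)) :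
    x₀ * g * x₁ * h * x₂ ∈ parabolic M U ↔
      h = g⁻¹ ∧ x₁ ∈ parabolic M (perp M V) ∧ x₀ * x₁ * x₂ ∈ parabolic M U := by
  constructor
  · intro hw
    have hw' : x₀ * g * x₁ * h * x₂ ∈ parabolic M {t | t ∉ V} :=
      Pool.Agent.Q220.VL.sub_mono (M := M) hU hw
    have hm : g * x₁ * h ∈ parabolic M {t | t ∉ V} := by
      have e : g * x₁ * h = x₀⁻¹ * (x₀ * g * x₁ * h * x₂) * x₂⁻¹ := by group
      rw [e]
      exact mul_mem (mul_mem (inv_mem h₀) hw') (inv_mem h₂)
    obtain ⟨e1, e2⟩ := Pool.Agent.Q220.VL.two_blocks (M := M) hg hh h₁ hfull hm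
    refine ⟨e1, e2, ?_⟩
    have hc := (Pool.Agent.Q220.VL.commute_block (M := M) e2 hg).eq
    have e3 : x₀ * x₁ * x₂ = x₀ * g * x₁ * h * x₂ := by
      rw [e1, mul_assoc x₀ g x₁, hc]
      group
    rw [e3]
    exact hw
  · rintro ⟨e1, e2, e4⟩
    have hc := (Pool.Agent.Q220.VL.commute_block (M := M) e2 hg).eq
    have e3 : x₀ * x₁ * x₂ = x₀ * g * x₁ * h * x₂ := by
      rw [e1, mul_assoc x₀ g x₁, hc]
      group
    rw [← e3]
    exact e4

end Pool.Agent.Results.MP_a1ec0a_al.TwoBlocks
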