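import Pool.Agent.Q220.VL.Thin

set_option autoImplicit false

/-!
# MP_a1ec0a_al: words in which every generator has at most two syllables, all Artin groups

For EVERY Artin group `A_M` the word problem is solved for the words `s₁ ^ a₁ s₂ ^ a₂ ⋯ s_k ^ a_k` (arbitrary
exponents `a_i ≠ 0`) in which every generator has at most two syllables, by a test that only uses the pairs
of generators with label `2`:

such a word is `1` in `A_M` if and only if the exponents of each generator have the sum `0`, and
`m_{st} = 2` for any two generators `s ≠ t` whose syllables interleave (`⋯ s ⋯ t ⋯ s ⋯ t ⋯`).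

Nothing is assumed on the Coxeter matrix (no FC type, no bound of the dimension, labels `∞` are allowed), and
the test takes quadratic time, uniformly in the matrix. The condition is the one for the right-angled
Artin group with the same pairs of commuting generators, so the labels `m ≥ 3` are invisible for these words. A
generator with three syllables is enough for a braid relation: `s t s t⁻¹ s⁻¹ t⁻¹ = 1` for `m_{st} = 3`.

**Proof.** (1) Van der Lek's theorem: for `T ⊆ S` the Artin group `A_T` embeds. We give a short proof:
`A` acts on (minimal representatives of `W / W_T`) × `A_T`; the braid relations hold because the product of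
the steps over a reduced word of `w` only depends on `w` (Deodhar's lemma and the positive section of `W_T`).
(2) For `s ∉ T` and `x ∈ A_T`: if `s ^ a x s ^ b ∈ A_T`, `a ≠ 0`, then `a + b = 0` and `x` commutes with
`s ^ a`. If `a` or `b` is odd this comes from the action: along a path in `A_T` from the state `s` the
second coordinate is only changed by generators `t` with `m_{st} = 2`. If both are even, the
action shows `s ^ a x s ^ b = x`.
(3) If `x = y₀ t ^ c y₁`, where `s, t` do not occur in `y₀, y₁`, `c ≠ 0` and `m_{st} ≠ 2`, then `x` does
not commute with `s ^ a`. Here we use the deformations `ρ_r` of the geometric representation (the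
reflection representation of the Hecke algebra with parameter `q = exp (2 r)`): if `x` commutes with `s ^ a`,
then the coordinate `t` of `ρ_r(x) e_s` is zero for `r ≠ 0`, so the deformed coroot of `t` vanishes at
`ρ_r(y₁) e_s`. In the limit `r → 0` the coroot of `t` vanishes at the positive root `w e_s` of the Coxeter
group, `w` the image of `y₁`; but it is negative there.
(4) Induction on the number of the syllables.
-/

namespace Pool.Agent.Results.MP_a1ec0a_al.TwoSyllablesPerGenerator

open Pool.Agent.Helper741 (Artin)

/-- The element of the Artin group which is given by a word, a list of syllables `(s, a)` for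
`s ^ a`. -/
def value {n : ℕ} (M : CoxeterMatrix (Fin n)) (w : List (Fin n × ℤ)) : Artin M :=
  (w.map fun p => Artin.gen M p.1 ^ p.2).prod

/-- The syllables of the generator `s`. -/
def syllables {n : ℕ} (w : List (Fin n × ℤ)) (s : Fin n) : List (Fin n × ℤ) :=
  w.filter fun p => decide (p.1 = s)

/-- The generators `s`, `t` have two syllables each, and they interleave: `s`, `t`, `s`, `t` in
this order. -/
def Interleave {n : ℕ} (w : List (Fin n × ℤ)) (s t : Fin n) : Prop :=
  (w.filter fun p => decide (p.1 = s ∨ p.1 = t)).map Prod.fst = [s, t, s, t]

/-- **Words with at most two syllables of every generator, all Artin groups.** -/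
theorem result (n : ℕ) (M : CoxeterMatrix (Fin n)) (w : List (Fin n × ℤ))
    (h0 : ∀ p ∈ w, p.2 ≠ 0) (h2 : ∀ s, (syllables w s).length ≤ 2) :
    value M w = 1 ↔
      (∀ s, ((syllables w s).map Prod.snd).sum = 0) ∧
        ∀ s t, s ≠ t → Interleave w s t → M s t = 2 :=
  Pool.Agent.Q220.VL.value_eq_one_iff (M := M) (w := w) ⟨h0, h2⟩

end Pool.Agent.Results.MP_a1ec0a_al.TwoSyllablesPerGenerator
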